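import Mathlib
import Pool.Agent.TBP.StmtsA

set_option autoImplicit false

/-! Row EPA of the squad TBP: the estimate of the Euler product. -/

namespace Pool.Agent.TBP.H95

open Finset
open Pool.Agent.TBP

theorem lw_anti (J : ℕ) {i j : ℕ} (h : i ≤ j) : lw J j ≤ lw J i := by
  unfold lw
  apply Nat.pow_le_pow_right (by norm_num)
  apply Nat.mul_le_mul_left
  apply Nat.pow_le_pow_right (by norm_num)
  omega

theorem lw_self (J : ℕ) : lw J J = 2 ^ J := by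
  unfold lw
  rw [Nat.sub_self, pow_zero, mul_one]

theorem two_pow_le_lw {J i : ℕ} (h : i ≤ J) : 2 ^ J ≤ lw J i := by
  rw [← lw_self J]
  exact lw_anti J h

theorem kp_le {θ : ℝ} (_h0 : 0 < θ) (h1 : θ < 1) (i : ℕ) : (kp θ i : ℝ) ≤ 2 ^ i := by
  have hi : (0 : ℝ) ≤ (i : ℝ) := Nat.cast_nonneg i
  unfold kp
  refine (Nat.floor_le (Real.rpow_nonneg (by norm_num) _)).trans ?_
  rw [← Real.rpow_natCast 2 i]
  apply Real.rpow_le_rpow_of_exponent_le (by norm_num)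
  nlinarith

theorem pb_unique {J p i i' : ℕ} (h : p ∈ pb J i) (h' : p ∈ pb J i') : i = i' := by
  unfold pb at h h'
  rw [Finset.mem_filter, Finset.mem_Ioc] at h h'
  rcases lt_trichotomy i i' with hl | hl | hl
  · have := lw_anti J (show i + 1 ≤ i' from hl)
    omega
  · exact hl
  · have := lw_anti J (show i' + 1 ≤ i from hl)
    omega

/-- the multiplicity bound -/
noncomputable def Kp (J p : ℕ) : ℝ := ∑ i ∈ (range J).filter (fun i => p ∈ pb J i), (2 : ℝ) ^ i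

theorem Kp_nonneg (J p : ℕ) : 0 ≤ Kp J p :=
  Finset.sum_nonneg (fun i _ => pow_nonneg (by norm_num) i)

theorem hh_one {θ : ℝ} {J p : ℕ} (h : ∀ i < J, p ∉ pb J i) : hh θ J p = 1 := by
  have e : (range J).filter (fun i => p ∈ pb J i) = ∅ := by
    apply Finset.filter_eq_empty_iff.2
    intro i hi
    exact h i (Finset.mem_range.1 hi)
  unfold hh
  rw [e, Finset.prod_empty]

theorem hh_small {θ : ℝ} {J p : ℕ} (h : p ≤ 2 ^ J) : hh θ J p = 1 := by
  apply hh_one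
  intro i hi hp
  unfold pb at hp
  rw [Finset.mem_filter, Finset.mem_Ioc] at hp
  have := two_pow_le_lw (show i + 1 ≤ J from hi)
  omega

theorem hh_le {θ : ℝ} (h0 : 0 < θ) (h1 : θ < 1) {J p : ℕ} (hp : 2 ^ J < p) :
    0 ≤ hh θ J p ∧ hh θ J p ≤ 1 + 2 * Kp J p / p := by
  by_cases h : ∃ i < J, p ∈ pb J i
  · obtain ⟨i, hi, hip⟩ := h
    have e : (range J).filter (fun i => p ∈ pb J i) = {i} := by
      ext i'
      rw [Finset.mem_filter, Finset.mem_range, Finset.mem_singleton]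
      constructor
      · rintro ⟨_, h2⟩
        exact pb_unique h2 hip
      · rintro rfl
        exact ⟨hi, hip⟩
    unfold hh Kp
    rw [e, Finset.prod_singleton, Finset.sum_singleton]
    have hp0 : (0 : ℝ) < (p : ℝ) := by
      have : 0 < p := lt_of_le_of_lt (Nat.zero_le _) hp
      exact_mod_cast this
    have hκ := kp_le h0 h1 i
    have hy : (2 : ℝ) * 2 ^ i ≤ (p : ℝ) := by
      have h2 : 2 ^ (i + 1) ≤ 2 ^ J := Nat.pow_le_pow_right (by norm_num) hi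
      have h3 : 2 ^ (i + 1) ≤ p := h2.trans hp.le
      have h4 : ((2 ^ (i + 1) : ℕ) : ℝ) ≤ (p : ℝ) := by exact_mod_cast h3
      push_cast at h4
      rw [pow_succ] at h4
      linarith
    have hx : (kp θ i : ℝ) / p ≤ 2 ^ i / p := div_le_div_of_nonneg_right hκ hp0.le
    have hy2 : (2 : ℝ) ^ i / p ≤ 1 / 2 := by
      rw [div_le_div_iff₀ hp0 (by norm_num)]
      linarith
    have hy0 : (0 : ℝ) ≤ (2 : ℝ) ^ i / p := by positivity
    have hpos : 0 < 1 - (kp θ i : ℝ) / p := by linarith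
    refine ⟨inv_nonneg.2 hpos.le, ?_⟩
    rw [inv_le_comm₀ hpos (by positivity)]
    have hq : (0 : ℝ) < 1 + 2 * 2 ^ i / p := by positivity
    have h3 : (1 + 2 * 2 ^ i / (p : ℝ))⁻¹ ≤ 1 - 2 ^ i / p := by
      rw [inv_le_comm₀ hq (by linarith), inv_le_iff_one_le_mul₀ (by linarith)]
      rw [mul_div_assoc]
      nlinarith
    linarith
  · push Not at h
    have e : (range J).filter (fun i => p ∈ pb J i) = ∅ := by
      apply Finset.filter_eq_empty_iff.2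
      intro i hi
      exact h i (Finset.mem_range.1 hi)
    rw [hh_one h]
    unfold Kp
    rw [e, Finset.sum_empty]
    norm_num

theorem lw_ge {J i : ℕ} (h : i < J) : 2 ^ i * 4 ^ (J - i) ≤ 2 * lw J (i + 1) := by
  obtain ⟨m, rfl⟩ := Nat.exists_eq_add_of_lt h
  have e1 : i + m + 1 - i = m + 1 := by omega
  have e2 : i + m + 1 - (i + 1) = m := by omega
  unfold lw
  rw [e1, e2]
  have e3 : (4 : ℕ) ^ (m + 1) = 2 ^ (2 * (m + 1)) := by
    rw [pow_mul]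
    norm_num
  rw [e3, ← pow_add, ← pow_succ']
  apply Nat.pow_le_pow_right (by norm_num)
  have h1 : m + 1 ≤ 2 ^ m := by
    have := Nat.lt_two_pow_self (n := m)
    omega
  have h2 : (i + m + 1) * (m + 1) ≤ (i + m + 1) * 2 ^ m := Nat.mul_le_mul_left _ h1
  nlinarith

theorem sum_four (J : ℕ) : ∑ i ∈ range J, (2 : ℝ) * ((4 : ℝ) ^ (J - i))⁻¹ ≤ 1 := by
  have h : ∀ J : ℕ, ∑ i ∈ range J, (2 : ℝ) * ((4 : ℝ) ^ (J - i))⁻¹ = (2 / 3) * (1 - ((4 : ℝ) ^ J)⁻¹) := by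
    intro J
    induction J with
    | zero => simp
    | succ J ih =>
      rw [Finset.sum_range_succ]
      have e : ∑ i ∈ range J, (2 : ℝ) * ((4 : ℝ) ^ (J + 1 - i))⁻¹ =
          (1 / 4) * ∑ i ∈ range J, (2 : ℝ) * ((4 : ℝ) ^ (J - i))⁻¹ := by
        rw [Finset.mul_sum]
        refine Finset.sum_congr rfl (fun i hi => ?_)
        have hi' := Finset.mem_range.1 hi
        rw [show J + 1 - i = (J - i) + 1 by omega, pow_succ, mul_inv]
        ring
      rw [e, ih, show J + 1 - J = 1 by omega, pow_succ, mul_inv]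
      ring
  rw [h J]
  have h2 : 0 < ((4 : ℝ) ^ J)⁻¹ := by positivity
  linarith

theorem sum_pb (J i : ℕ) :
    ∑ p ∈ pb J i, ((p : ℝ) ^ 2)⁻¹ ≤ ((lw J (i + 1) : ℕ) : ℝ)⁻¹ := by
  have h0 : lw J (i + 1) ≠ 0 := by
    unfold lw
    positivity
  have h1 : lw J (i + 1) ≤ lw J i := lw_anti J (Nat.le_succ i)
  have h2 := sum_Ioc_inv_sq_le_sub (α := ℝ) h0 h1
  have h3 : ∑ p ∈ pb J i, ((p : ℝ) ^ 2)⁻¹ ≤
      ∑ p ∈ Ioc (lw J (i + 1)) (lw J i), ((p : ℝ) ^ 2)⁻¹ := by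
    unfold pb
    apply Finset.sum_le_sum_of_subset_of_nonneg (Finset.filter_subset _ _)
    intro p _ _
    positivity
  have h4 : (0 : ℝ) ≤ ((lw J i : ℕ) : ℝ)⁻¹ := by positivity
  linarith

theorem sum_K (J : ℕ) (L : Finset ℕ) : ∑ p ∈ L, Kp J p * ((p : ℝ) ^ 2)⁻¹ ≤ 1 := by
  have e : ∀ p ∈ L, Kp J p * ((p : ℝ) ^ 2)⁻¹ =
      ∑ i ∈ range J, (if p ∈ pb J i then (2 : ℝ) ^ i * ((p : ℝ) ^ 2)⁻¹ else 0) := by
    intro p _
    unfold Kp
    rw [Finset.sum_mul, Finset.sum_filter]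
  rw [Finset.sum_congr rfl e, Finset.sum_comm]
  refine le_trans (Finset.sum_le_sum (fun i hi => ?_)) (sum_four J)
  have hi' := Finset.mem_range.1 hi
  rw [← Finset.sum_filter]
  have h1 : ∑ p ∈ L.filter (fun p => p ∈ pb J i), (2 : ℝ) ^ i * ((p : ℝ) ^ 2)⁻¹ ≤
      ∑ p ∈ pb J i, (2 : ℝ) ^ i * ((p : ℝ) ^ 2)⁻¹ := by
    apply Finset.sum_le_sum_of_subset_of_nonneg
    · intro p hp
      exact (Finset.mem_filter.1 hp).2
    · intro p _ _
      positivity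
  refine h1.trans ?_
  rw [← Finset.mul_sum]
  have h2 : (2 : ℝ) ^ i * ∑ p ∈ pb J i, ((p : ℝ) ^ 2)⁻¹ ≤
      (2 : ℝ) ^ i * ((lw J (i + 1) : ℕ) : ℝ)⁻¹ :=
    mul_le_mul_of_nonneg_left (sum_pb J i) (by positivity)
  refine h2.trans ?_
  have hl : (0 : ℝ) < ((lw J (i + 1) : ℕ) : ℝ) := by
    have : 0 < lw J (i + 1) := by
      unfold lw
      positivity
    exact_mod_cast this
  rw [← div_eq_mul_inv, ← div_eq_mul_inv, div_le_div_iff₀ hl (by positivity)]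
  have h3 := lw_ge hi'
  have h4 : ((2 ^ i * 4 ^ (J - i) : ℕ) : ℝ) ≤ ((2 * lw J (i + 1) : ℕ) : ℝ) := by
    exact_mod_cast h3
  push_cast at h4
  exact h4

theorem exp_one_sub_le : Real.exp 1 - 1 ≤ 2 := by
  have := Real.exp_one_lt_d9
  linarith

theorem exp_one_sub_pos : 0 < Real.exp 1 - 1 := by
  have := Real.exp_one_gt_d9
  linarith

theorem term_le {θ : ℝ} (h0 : 0 < θ) (h1 : θ < 1) {J p : ℕ} (hp : 2 ^ J < p) (hp2 : 2 ≤ p) :
    0 ≤ hh θ J p * ((Real.exp 1 - 1) / p + 40 / (p : ℝ) ^ 2) ∧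
    hh θ J p * ((Real.exp 1 - 1) / p + 40 / (p : ℝ) ^ 2) ≤
      (Real.exp 1 - 1) * (1 / p) + 40 * ((p : ℝ) ^ 2)⁻¹ + 44 * (Kp J p * ((p : ℝ) ^ 2)⁻¹) := by
  obtain ⟨a1, a2⟩ := hh_le h0 h1 hp
  have hp' : (2 : ℝ) ≤ (p : ℝ) := by exact_mod_cast hp2
  have hp0 : (0 : ℝ) < (p : ℝ) := by linarith
  have hc := exp_one_sub_le
  have hc0 := exp_one_sub_pos
  have hK := Kp_nonneg J p
  set c := Real.exp 1 - 1 with hcdef
  have hnn : 0 ≤ c / p + 40 / (p : ℝ) ^ 2 := by positivity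
  refine ⟨mul_nonneg a1 hnn, ?_⟩
  refine (mul_le_mul_of_nonneg_right a2 hnn).trans ?_
  set u := (p : ℝ)⁻¹ with hu
  have hu0 : 0 < u := inv_pos.2 hp0
  have hu2 : u ≤ 1 / 2 := by
    rw [hu, inv_eq_one_div]
    exact one_div_le_one_div_of_le (by norm_num) hp'
  have e1 : (1 + 2 * Kp J p / p) * (c / p + 40 / (p : ℝ) ^ 2) =
      c * u + 40 * u ^ 2 + (2 * c * Kp J p * u ^ 2 + 80 * Kp J p * u ^ 2 * u) := by
    rw [hu]
    field_simp
    ring
  have e2 : c * (1 / p) + 40 * ((p : ℝ) ^ 2)⁻¹ + 44 * (Kp J p * ((p : ℝ) ^ 2)⁻¹) =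
      c * u + 40 * u ^ 2 + 44 * (Kp J p * u ^ 2) := by
    rw [hu, one_div, inv_pow]
  rw [e1, e2]
  have hKu : 0 ≤ Kp J p * u ^ 2 := by positivity
  have i1 : 2 * c * Kp J p * u ^ 2 ≤ 4 * (Kp J p * u ^ 2) := by nlinarith
  have i2 : 80 * Kp J p * u ^ 2 * u ≤ 40 * (Kp J p * u ^ 2) := by nlinarith
  linarith

theorem sum_sq_le (w N : ℕ) (hw : 1 ≤ w) :
    ∑ p ∈ (Ioc w N).filter Nat.Prime, ((p : ℝ) ^ 2)⁻¹ ≤ 1 := by
  rcases le_or_gt w N with h | h
  · have h2 := sum_Ioc_inv_sq_le_sub (α := ℝ) (show w ≠ 0 by omega) h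
    have h3 : ∑ p ∈ (Ioc w N).filter Nat.Prime, ((p : ℝ) ^ 2)⁻¹ ≤
        ∑ p ∈ Ioc w N, ((p : ℝ) ^ 2)⁻¹ := by
      apply Finset.sum_le_sum_of_subset_of_nonneg (Finset.filter_subset _ _)
      intro p _ _
      positivity
    have h4 : (0 : ℝ) ≤ ((N : ℕ) : ℝ)⁻¹ := by positivity
    have h5 : ((w : ℕ) : ℝ)⁻¹ ≤ 1 := by
      have : (1 : ℝ) ≤ (w : ℝ) := by exact_mod_cast hw
      exact inv_le_one_of_one_le₀ this
    linarith
  · rw [Finset.Ioc_eq_empty (by omega), Finset.filter_empty, Finset.sum_empty]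
    norm_num

theorem big_le {θ : ℝ} (h0 : 0 < θ) (h1 : θ < 1) {J j : ℕ} (hJ : 1 ≤ J) (hj : j ≤ J) (N : ℕ) :
    ∏ p ∈ (Ioc (lw J j) N).filter Nat.Prime,
        (1 + hh θ J p * ((Real.exp 1 - 1) / p + 40 / (p : ℝ) ^ 2)) ≤
      Real.exp ((Real.exp 1 - 1) * ∑ p ∈ (Ioc (lw J j) N).filter Nat.Prime, (1 : ℝ) / p + 84) := by
  have hw := two_pow_le_lw hj
  have hJ2 : 2 ≤ 2 ^ J := by
    calc 2 = 2 ^ 1 := by norm_num
      _ ≤ 2 ^ J := Nat.pow_le_pow_right (by norm_num) hJ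
  have ht : ∀ p ∈ (Ioc (lw J j) N).filter Nat.Prime, 2 ^ J < p ∧ 2 ≤ p := by
    intro p hp
    rw [Finset.mem_filter, Finset.mem_Ioc] at hp
    omega
  have s1 : ∏ p ∈ (Ioc (lw J j) N).filter Nat.Prime,
        (1 + hh θ J p * ((Real.exp 1 - 1) / p + 40 / (p : ℝ) ^ 2)) ≤
      ∏ p ∈ (Ioc (lw J j) N).filter Nat.Prime,
        Real.exp ((Real.exp 1 - 1) * (1 / p) + 40 * ((p : ℝ) ^ 2)⁻¹ +
          44 * (Kp J p * ((p : ℝ) ^ 2)⁻¹)) := by
    apply Finset.prod_le_prod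
    · intro p hp
      obtain ⟨b1, b2⟩ := ht p hp
      have := (term_le h0 h1 b1 b2).1
      linarith
    · intro p hp
      obtain ⟨b1, b2⟩ := ht p hp
      have c2 := (term_le h0 h1 b1 b2).2
      have c3 := Real.add_one_le_exp ((Real.exp 1 - 1) * (1 / p) + 40 * ((p : ℝ) ^ 2)⁻¹ +
          44 * (Kp J p * ((p : ℝ) ^ 2)⁻¹))
      linarith
  refine s1.trans ?_
  rw [← Real.exp_sum]
  apply Real.exp_le_exp.2
  rw [Finset.sum_add_distrib, Finset.sum_add_distrib, ← Finset.mul_sum, ← Finset.mul_sum,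
    ← Finset.mul_sum]
  have i1 := sum_sq_le (lw J j) N (by omega)
  have i2 := sum_K J ((Ioc (lw J j) N).filter Nat.Prime)
  linarith

theorem big_fin (M : ℝ) (hM : 0 ≤ M)
    (mer : ∀ w x : ℕ, 2 ≤ w → w ≤ x →
      ∑ p ∈ (Ioc w x).filter Nat.Prime, (1 : ℝ) / p ≤ Real.log (Real.log x / Real.log w) + M)
    {θ : ℝ} (h0 : 0 < θ) (h1 : θ < 1) {a J j N : ℕ} (ha : 1 ≤ a) (hJ : 1 ≤ J) (hj : j ≤ J)
    (hN : N ≤ (lw J 0) ^ (4 * a)) :
    ∏ p ∈ (Ioc (lw J j) N).filter Nat.Prime,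
        (1 + hh θ J p * ((Real.exp 1 - 1) / p + 40 / (p : ℝ) ^ 2)) ≤
      Real.exp (2 * M + 84) * (4 * (a : ℝ) * 2 ^ j) ^ (Real.exp 1 - 1) := by
  have hc := exp_one_sub_le
  have hc0 := exp_one_sub_pos
  have haR : (1 : ℝ) ≤ (a : ℝ) := by exact_mod_cast ha
  have h2j : (1 : ℝ) ≤ 2 ^ j := one_le_pow₀ (by norm_num)
  have hbase : (1 : ℝ) ≤ 4 * (a : ℝ) * 2 ^ j := by nlinarith
  rcases le_or_gt (lw J j) N with hle | hlt
  · have hw := two_pow_le_lw hj
    have hJ2 : 2 ≤ 2 ^ J := by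
      calc 2 = 2 ^ 1 := by norm_num
        _ ≤ 2 ^ J := Nat.pow_le_pow_right (by norm_num) hJ
    refine (big_le h0 h1 hJ hj N).trans ?_
    have hm := mer (lw J j) N (by omega) hle
    have hlog2 : 0 < Real.log 2 := Real.log_pos (by norm_num)
    have hlw : Real.log ((lw J j : ℕ) : ℝ) = (J : ℝ) * 2 ^ (J - j) * Real.log 2 := by
      unfold lw
      push_cast
      rw [Real.log_pow]
      push_cast
      ring
    have hlw0 : Real.log ((lw J 0 : ℕ) : ℝ) = (J : ℝ) * 2 ^ J * Real.log 2 := by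
      unfold lw
      push_cast
      rw [Real.log_pow, Nat.sub_zero]
      push_cast
      ring
    have hJR : (1 : ℝ) ≤ (J : ℝ) := by exact_mod_cast hJ
    have hNpos : (0 : ℝ) < (N : ℝ) := by
      have : 0 < N := by omega
      exact_mod_cast this
    have hlogN : Real.log N ≤ 4 * (a : ℝ) * ((J : ℝ) * 2 ^ J * Real.log 2) := by
      have h2 : (N : ℝ) ≤ ((lw J 0 : ℕ) : ℝ) ^ (4 * a) := by exact_mod_cast hN
      have h3 := Real.log_le_log hNpos h2
      rw [Real.log_pow, hlw0] at h3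
      push_cast at h3
      exact h3
    have hNgt : (1 : ℝ) < (N : ℝ) := by
      have : 1 < N := by omega
      exact_mod_cast this
    have hlogNpos : 0 < Real.log N := Real.log_pos hNgt
    have hlwpos : 0 < Real.log ((lw J j : ℕ) : ℝ) := by
      rw [hlw]
      positivity
    have hq : Real.log N / Real.log ((lw J j : ℕ) : ℝ) ≤ 4 * (a : ℝ) * 2 ^ j := by
      rw [div_le_iff₀ hlwpos, hlw]
      refine hlogN.trans (le_of_eq ?_)
      have e : (2 : ℝ) ^ J = 2 ^ j * 2 ^ (J - j) := by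
        rw [← pow_add]
        congr 1
        omega
      rw [e]
      ring
    have hqpos : 0 < Real.log N / Real.log ((lw J j : ℕ) : ℝ) := div_pos hlogNpos hlwpos
    have hlogq : Real.log (Real.log N / Real.log ((lw J j : ℕ) : ℝ)) ≤
        Real.log (4 * (a : ℝ) * 2 ^ j) := Real.log_le_log hqpos hq
    have hfin : (Real.exp 1 - 1) * ∑ p ∈ (Ioc (lw J j) N).filter Nat.Prime, (1 : ℝ) / p + 84 ≤
        Real.log (4 * (a : ℝ) * 2 ^ j) * (Real.exp 1 - 1) + (2 * M + 84) := by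
      have g1 : (Real.exp 1 - 1) * ∑ p ∈ (Ioc (lw J j) N).filter Nat.Prime, (1 : ℝ) / p ≤
          (Real.exp 1 - 1) * (Real.log (4 * (a : ℝ) * 2 ^ j) + M) :=
        mul_le_mul_of_nonneg_left (by linarith) hc0.le
      have g2 : (Real.exp 1 - 1) * M ≤ 2 * M := mul_le_mul_of_nonneg_right hc hM
      nlinarith
    refine (Real.exp_le_exp.2 hfin).trans (le_of_eq ?_)
    rw [Real.exp_add, ← Real.rpow_def_of_pos (by linarith), mul_comm]
  · rw [Finset.Ioc_eq_empty (by omega), Finset.filter_empty, Finset.prod_empty]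
    have g1 : (1 : ℝ) ≤ Real.exp (2 * M + 84) := Real.one_le_exp (by linarith)
    have g2 : (1 : ℝ) ≤ (4 * (a : ℝ) * 2 ^ j) ^ (Real.exp 1 - 1) :=
      Real.one_le_rpow hbase hc0.le
    nlinarith

theorem two_pow_card_le {k : ℕ} (hk : 1 ≤ k) : 2 ^ k.primeFactors.card ≤ k.divisors.card := by
  rw [Nat.card_divisors (by omega)]
  apply Finset.pow_card_le_prod
  intro p hp
  have h1 := Nat.support_factorization k
  have h2 : p ∈ k.factorization.support := by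
    rw [h1]
    exact hp
  rw [Finsupp.mem_support_iff] at h2
  omega

theorem small_le {θ : ℝ} {J k : ℕ} (hk : 1 ≤ k) (S : Finset ℕ)
    (hS : ∀ p ∈ S, p.Prime ∧ p ≤ 2 ^ J ∧ p ∣ k) :
    ∏ p ∈ S, (1 + hh θ J p * ((Real.exp 1 - 1) / p + 40 / (p : ℝ) ^ 2)) ≤
      (k.divisors.card : ℝ) ^ 4 := by
  have hc := exp_one_sub_le
  have hc0 := exp_one_sub_pos
  have h1 : ∏ p ∈ S, (1 + hh θ J p * ((Real.exp 1 - 1) / p + 40 / (p : ℝ) ^ 2)) ≤
      ∏ _p ∈ S, (16 : ℝ) := by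
    apply Finset.prod_le_prod
    · intro p hp
      rw [hh_small (hS p hp).2.1, one_mul]
      positivity
    · intro p hp
      rw [hh_small (hS p hp).2.1, one_mul]
      have hp2 : (2 : ℝ) ≤ (p : ℝ) := by exact_mod_cast (hS p hp).1.two_le
      have g1 : (Real.exp 1 - 1) / p ≤ 1 := by
        rw [div_le_one (by linarith)]
        linarith
      have g2 : 40 / (p : ℝ) ^ 2 ≤ 10 := by
        rw [div_le_iff₀ (by positivity)]
        nlinarith
      linarith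
  rw [Finset.prod_const] at h1
  have h2 : S ⊆ k.primeFactors := by
    intro p hp
    rw [Nat.mem_primeFactors]
    exact ⟨(hS p hp).1, (hS p hp).2.2, by omega⟩
  have h3 : (16 : ℝ) ^ S.card ≤ (16 : ℝ) ^ k.primeFactors.card :=
    pow_le_pow_right₀ (by norm_num) (Finset.card_le_card h2)
  have h4 : (16 : ℝ) ^ k.primeFactors.card = ((2 : ℝ) ^ k.primeFactors.card) ^ 4 := by
    rw [← pow_mul, mul_comm, pow_mul]
    norm_num
  have h5 : (2 : ℝ) ^ k.primeFactors.card ≤ (k.divisors.card : ℝ) := by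
    exact_mod_cast two_pow_card_le hk
  have h6 : ((2 : ℝ) ^ k.primeFactors.card) ^ 4 ≤ (k.divisors.card : ℝ) ^ 4 :=
    pow_le_pow_left₀ (by positivity) h5 4
  linarith

theorem epa (mer : MerStmt) : EpaStmt := by
  obtain ⟨M, hM, mer⟩ := mer
  refine ⟨Real.exp (2 * M + 84), Real.one_le_exp (by linarith), ?_⟩
  intro θ a J j N k h0 h1 ha hJ hj hN hk
  rw [← Finset.prod_filter_mul_prod_filter_not (PP J j N k) (fun p => lw J j < p)]
  have e1 : (PP J j N k).filter (fun p => lw J j < p) = (Ioc (lw J j) N).filter Nat.Prime := by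
    ext p
    unfold PP
    simp only [Finset.mem_filter, Finset.mem_Icc, Finset.mem_Ioc]
    constructor
    · rintro ⟨⟨⟨_, b⟩, c, _⟩, d⟩
      exact ⟨⟨d, b⟩, c⟩
    · rintro ⟨⟨d, b⟩, c⟩
      exact ⟨⟨⟨by omega, b⟩, c, Or.inl d⟩, d⟩
  rw [e1]
  have s1 := big_fin M hM mer h0 h1 ha hJ hj hN
  have s2 := small_le (θ := θ) (J := J) hk ((PP J j N k).filter (fun p => ¬ lw J j < p)) (by
    intro p hp
    unfold PP at hp
    simp only [Finset.mem_filter, Finset.mem_Icc] at hp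
    obtain ⟨⟨⟨_, _⟩, c, d⟩, f⟩ := hp
    rcases d with d | ⟨d1, d2⟩
    · exact absurd d f
    · exact ⟨c, d1, dvd_trans (dvd_pow_self p (by omega)) d2⟩)
  apply mul_le_mul s1 s2
  · apply Finset.prod_nonneg
    intro p hp
    unfold PP at hp
    simp only [Finset.mem_filter, Finset.mem_Icc] at hp
    obtain ⟨⟨⟨_, _⟩, c, d⟩, f⟩ := hp
    rcases d with d | ⟨d1, d2⟩
    · exact absurd d f
    · rw [hh_small d1, one_mul]
      have := exp_one_sub_pos
      positivity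
  · positivity

end Pool.Agent.TBP.H95
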